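import Pool.Agent.N913.MG.R2

/-!
# Bounded clusters of primes at the beginning of almost all progressions

The Maynard-Tao theorem at the beginning of almost all progressions `b mod q`: for every `m` there
are `k` and `B` such that for every set `S` of at least `k` nonnegative integers, for all but at most
`ε Q²` of the coprime pairs `1 ≤ b ≤ q ≤ Q`, there is a positive integer `n ≤ (log Q)^B` such that at
least `m` of the numbers `b + q (n + h)`, `h ∈ S`, are primes; the same holds for the windows
`J < n ≤ J + (log Q)^B`, for almost all members `J` of an arbitrary set of integers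
`0 ≤ J ≤ (log Q)^C` at the same time.

Method: the numbers `b + q t` are linear forms in `q` and `b`, and two of them, for `t ≠ t'`, are
independent, so the second moments over all pairs `(q, b)` of Maynard's weighted sums, with weights
supported on divisors of the numbers `b + q (n + h)`, `h ∈ S`, with and without the indicator
functions of the primes, can be computed (Bombieri-Vinogradov theorem): the weighted sums over the
`n` in a window of length a power of `log Q` are close to their means for almost all pairs, and the
ratio of the means is unbounded.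
-/

set_option autoImplicit false

namespace Pool.Agent.Results.MP_42948a_nt.BoundedClusters

open Finset

/-- the number of `h ∈ S` such that `b + q (n + h)` is a prime -/
def primesIn (S : Finset ℕ) (q b n : ℕ) : ℕ :=
  #(S.filter (fun h => (b + q * (n + h)).Prime))

/-- **Bounded clusters of primes at the beginning of almost all progressions.** For every `m` there
are `k` and `B` such that for every set `S` of at least `k` nonnegative integers, all `C` and
`ε > 0`, all `Q ≥ Q₀` and every finite set `W` of integers `0 ≤ J ≤ (log Q)^C` all but at most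
`ε Q²` of the coprime pairs `1 ≤ b ≤ q ≤ Q` have the following property: for all but at most `ε #W`
of the `J ∈ W` there is an integer `n` with `J < n ≤ J + (log Q)^B` such that at least `m` of the
numbers `b + q (n + h)`, `h ∈ S`, are primes. -/
theorem result (m : ℕ) : ∃ k B : ℕ, ∀ S : Finset ℕ, k ≤ #S → ∀ (C : ℕ) (ε : ℝ), 0 < ε →
    ∃ Q₀ : ℕ, ∀ Q : ℕ, Q₀ ≤ Q → ∀ W : Finset ℕ, (∀ J ∈ W, (J : ℝ) ≤ Real.log Q ^ C) →
    ∃ Bad : Finset (ℕ × ℕ), (#Bad : ℝ) ≤ ε * Q ^ 2 ∧ ∀ q b : ℕ, q ≤ Q → 1 ≤ b → b ≤ q →
      q.Coprime b → (q, b) ∉ Bad →
      ∃ G ⊆ W, (1 - ε) * #W ≤ #G ∧ ∀ J ∈ G, ∃ n : ℕ, J < n ∧ (n : ℝ) ≤ J + Real.log Q ^ B ∧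
        m ≤ primesIn S q b n :=
  Pool.Agent.N913.MG.progressions m

end Pool.Agent.Results.MP_42948a_nt.BoundedClusters
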