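import Pool.Agent.N733.TG.K
import Pool.Agent.Results.MP_42948a_nt.ShortClassIntervals

/-!
# Chowla's bound in very short intervals of classes, for moduli near values of multiplicative functions

Let `f` be a positive multiplicative function of at most polynomial growth such that `f p ≤ M p` for the large primes `p`,
with different values at different large primes; for example Euler's function or the sum of the divisors. Let `α > 0`. For
all `ε, η ∈ (0, 1)` there are `c, κ > 0` such that for all large `N` and all `β ∈ [0, 1]`, for all `m ≤ N` but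
`N / (log N) ^ U`, EVERY modulus `d ≥ 1` with `|d - α f(m)| ≤ f(m) ^ κ` has the property: at least `c (φ(d)/d) d ^ η` of the
integers `a` in `(β d, β d + d ^ η]` are coprime to `d` and such that some prime `p ≡ a (mod d)` is less than `d ^ (1 + ε)`
(Chowla's bound). The moduli include `φ(m)` and `σ(m)`.

The values of such functions have density zero and they are taken with very large multiplicities, so the theorem does not
follow from the size of the exceptional set of moduli. The proof uses the starting theorem `ShortClassIntervals` of this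
problem (at most `D ^ (1 - κ)` exceptional moduli in `(D, 2 D)`) and the tool `Pool.Agent.N733.TG` (helper733).
-/

set_option autoImplicit false

open Finset

namespace Pool.Agent.Results.MP_42948a_nt.MultiplicativeValues

open Pool.Agent.N733.TG (LM lm_totient lm_sigma keep_away)

/-- At least `c (φ(d)/d) d ^ η` of the integers `a` in `(β d, β d + d ^ η]` are coprime to `d` and such that some prime
`p ≡ a (mod d)` is less than `d ^ (1 + ε)`. -/
def Good (ε η c β : ℝ) (d : ℕ) : Prop :=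
  c * ((Nat.totient d : ℝ) / d) * (d : ℝ) ^ η ≤
    ({a : ℕ | β * d < a ∧ (a : ℝ) ≤ β * d + (d : ℝ) ^ η ∧ a.Coprime d ∧
      ∃ p : ℕ, p.Prime ∧ p ≡ a [MOD d] ∧ (p : ℝ) < (d : ℝ) ^ (1 + ε)}.ncard : ℝ)

open Classical in
lemma dyadic {S : Set ℕ} {κ : ℝ} (hκ : 0 < κ) (hκ1 : κ ≤ 1) {D₀ : ℕ}
    (h : ∀ D : ℕ, D₀ ≤ D → ∃ E : Finset ℕ, (E.card : ℝ) ≤ (D : ℝ) ^ (1 - κ) ∧
      ∀ d : ℕ, D < d → d < 2 * D → d ∉ E → d ∉ S) (X : ℕ) (hX : 1 ≤ X) :
    (((Icc 1 X).filter (fun v => v ∈ S)).card : ℝ) ≤ (2 * (D₀ : ℝ) + 2 + 8 / κ) * (X : ℝ) ^ (1 - κ / 2) := by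
  choose! E hE1 hE2 using h
  have hX1 : (1 : ℝ) ≤ X := by exact_mod_cast hX
  obtain ⟨J, hJ⟩ : ∃ J, J = Nat.log 2 X := ⟨_, rfl⟩
  have hsub : (Icc 1 X).filter (fun v => v ∈ S) ⊆ range (2 * D₀) ∪ ((range (J + 1)).image (fun j => 2 ^ j) ∪
      (range (J + 1)).biUnion (fun j => if D₀ ≤ 2 ^ j then E (2 ^ j) else ∅)) := by
    intro v hv
    rw [mem_filter, mem_Icc] at hv
    obtain ⟨⟨hv1, hvX⟩, hvS⟩ := hv
    obtain ⟨j, hj⟩ : ∃ j, j = Nat.log 2 v := ⟨_, rfl⟩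
    have hjJ : j < J + 1 := by
      rw [hj, hJ]
      exact Nat.lt_succ_of_le (Nat.log_mono_right hvX)
    have h1 : 2 ^ j ≤ v := by rw [hj]; exact Nat.pow_log_le_self 2 (by omega)
    have h2 : v < 2 * 2 ^ j := by
      have := Nat.lt_pow_succ_log_self (b := 2) (by norm_num) v
      rw [← hj] at this
      rw [pow_succ] at this
      omega
    rw [mem_union, mem_union, mem_image, mem_biUnion, mem_range]
    by_cases h3 : 2 ^ j = v
    · right; left
      exact ⟨j, mem_range.2 hjJ, h3⟩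
    · by_cases h4 : D₀ ≤ 2 ^ j
      · right; right
        refine ⟨j, mem_range.2 hjJ, ?_⟩
        rw [if_pos h4]
        by_contra h5
        exact hE2 _ h4 v (by omega) h2 h5 hvS
      · left
        omega
  have hE : ∀ j ∈ range (J + 1), (((if D₀ ≤ 2 ^ j then E (2 ^ j) else ∅ : Finset ℕ).card : ℕ) : ℝ) ≤
      (X : ℝ) ^ (1 - κ) := by
    intro j hj
    rw [mem_range] at hj
    have h2j : 2 ^ j ≤ X := (Nat.pow_le_pow_right (by norm_num) (Nat.lt_succ_iff.1 hj)).trans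
      (by rw [hJ]; exact Nat.pow_log_le_self 2 (by omega))
    split_ifs with h
    · refine (hE1 _ h).trans ?_
      apply Real.rpow_le_rpow (Nat.cast_nonneg _) _ (by linarith)
      exact_mod_cast h2j
    · rw [card_empty, Nat.cast_zero]
      positivity
  have h1 : (((Icc 1 X).filter (fun v => v ∈ S)).card : ℝ) ≤ 2 * D₀ + ((J + 1 : ℕ) + (J + 1 : ℕ) * (X : ℝ) ^ (1 - κ)) := by
    have h2 := (card_le_card hsub).trans (card_union_le _ _)
    have h3 := card_union_le ((range (J + 1)).image (fun j => 2 ^ j))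
      ((range (J + 1)).biUnion (fun j => if D₀ ≤ 2 ^ j then E (2 ^ j) else ∅))
    have h4 : ((range (J + 1)).image (fun j => 2 ^ j)).card ≤ J + 1 := card_image_le.trans (by simp)
    have h5 : ((((range (J + 1)).biUnion (fun j => if D₀ ≤ 2 ^ j then E (2 ^ j) else ∅)).card : ℕ) : ℝ) ≤
        (J + 1 : ℕ) * (X : ℝ) ^ (1 - κ) := by
      have h6 : ((((range (J + 1)).biUnion (fun j => if D₀ ≤ 2 ^ j then E (2 ^ j) else ∅)).card : ℕ) : ℝ) ≤
          ∑ j ∈ range (J + 1), (((if D₀ ≤ 2 ^ j then E (2 ^ j) else ∅ : Finset ℕ).card : ℕ) : ℝ) := by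
        exact_mod_cast card_biUnion_le
      refine h6.trans ((sum_le_sum hE).trans (le_of_eq ?_))
      rw [sum_const, card_range, nsmul_eq_mul]
    rw [card_range] at h2
    have h7 : (((Icc 1 X).filter (fun v => v ∈ S)).card : ℝ) ≤ ((2 * D₀ + ((J + 1) +
        ((range (J + 1)).biUnion (fun j => if D₀ ≤ 2 ^ j then E (2 ^ j) else ∅)).card) : ℕ) : ℝ) := by
      have : ((Icc 1 X).filter (fun v => v ∈ S)).card ≤ 2 * D₀ + ((J + 1) +
        ((range (J + 1)).biUnion (fun j => if D₀ ≤ 2 ^ j then E (2 ^ j) else ∅)).card) := by omega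
      exact_mod_cast this
    refine h7.trans ?_
    push_cast
    push_cast at h5
    linarith
  have hJ2 : ((J + 1 : ℕ) : ℝ) ≤ (1 + 4 / κ) * (X : ℝ) ^ (κ / 2) := by
    have h2 : (2 : ℝ) ^ J ≤ X := by
      have : 2 ^ J ≤ X := by rw [hJ]; exact Nat.pow_log_le_self 2 (by omega)
      exact_mod_cast this
    have h3 : (J : ℝ) * Real.log 2 ≤ Real.log X := by
      rw [← Real.log_pow]
      exact Real.log_le_log (by positivity) h2
    have h4 : Real.log X ≤ (X : ℝ) ^ (κ / 2) / (κ / 2) := Real.log_le_rpow_div (by linarith) (by linarith)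
    have h5 : (1 : ℝ) ≤ (X : ℝ) ^ (κ / 2) := Real.one_le_rpow hX1 (by linarith)
    have h6 := Real.log_two_gt_d9
    have hJ0 : (0 : ℝ) ≤ J := Nat.cast_nonneg _
    have h7 : (J : ℝ) ≤ 2 * Real.log X := by nlinarith
    have h8 : (X : ℝ) ^ (κ / 2) / (κ / 2) = (2 / κ) * (X : ℝ) ^ (κ / 2) := by field_simp
    rw [h8] at h4
    have h9 : (4 / κ) * (X : ℝ) ^ (κ / 2) = 2 * ((2 / κ) * (X : ℝ) ^ (κ / 2)) := by ring
    push_cast
    rw [add_mul, h9, one_mul]
    linarith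
  have e1 : (X : ℝ) ^ (κ / 2) * (X : ℝ) ^ (1 - κ) = (X : ℝ) ^ (1 - κ / 2) := by
    rw [← Real.rpow_add (by linarith)]
    ring_nf
  have e2 : (1 : ℝ) ≤ (X : ℝ) ^ (1 - κ) := Real.one_le_rpow hX1 (by linarith)
  have e3 : (1 : ℝ) ≤ (X : ℝ) ^ (1 - κ / 2) := Real.one_le_rpow hX1 (by linarith)
  have e4 : ((J + 1 : ℕ) : ℝ) ≤ (1 + 4 / κ) * (X : ℝ) ^ (1 - κ / 2) := by
    refine hJ2.trans (mul_le_mul_of_nonneg_left ?_ (by positivity))
    exact Real.rpow_le_rpow_of_exponent_le hX1 (by linarith)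
  have e5 : ((J + 1 : ℕ) : ℝ) * (X : ℝ) ^ (1 - κ) ≤ (1 + 4 / κ) * (X : ℝ) ^ (1 - κ / 2) := by
    calc ((J + 1 : ℕ) : ℝ) * (X : ℝ) ^ (1 - κ) ≤ ((1 + 4 / κ) * (X : ℝ) ^ (κ / 2)) * (X : ℝ) ^ (1 - κ) :=
          mul_le_mul_of_nonneg_right hJ2 (by positivity)
      _ = (1 + 4 / κ) * (X : ℝ) ^ (1 - κ / 2) := by rw [mul_assoc, e1]
  have e6 : 2 * (D₀ : ℝ) ≤ 2 * D₀ * (X : ℝ) ^ (1 - κ / 2) := by
    have : (0 : ℝ) ≤ D₀ := Nat.cast_nonneg _
    nlinarith
  have e7 : (2 * (D₀ : ℝ) + 2 + 8 / κ) * (X : ℝ) ^ (1 - κ / 2) = 2 * D₀ * (X : ℝ) ^ (1 - κ / 2) +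
      ((1 + 4 / κ) * (X : ℝ) ^ (1 - κ / 2) + (1 + 4 / κ) * (X : ℝ) ^ (1 - κ / 2)) := by ring
  rw [e7]
  linarith

/-- **Chowla's bound in very short intervals of classes, moduli near values of multiplicative functions.** For all
`ε, η ∈ (0, 1)` there are `c, κ > 0` such that: let `f` be multiplicative and positive, of at most polynomial growth, with
`f p ≤ M p` at the large primes, and injective there, and let `α > 0`. For every `U`, all large `N` and all `β ∈ [0, 1]`,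
for all `m ≤ N` but at most `N / (log N) ^ U`, EVERY `d ≥ 1` with `|d - α f(m)| ≤ f(m) ^ κ` has the property `Good`: at
least `c (φ(d)/d) d ^ η` of the integers `a` in `(β d, β d + d ^ η]` are coprime to `d` and such that some prime
`p ≡ a (mod d)` is less than `d ^ (1 + ε)`. Euler's function and the sum of the divisors are examples of such `f`. -/
theorem result :
    (∀ ε η : ℝ, 0 < ε → ε < 1 → 0 < η → η < 1 → ∃ c κ : ℝ, 0 < c ∧ 0 < κ ∧
      ∀ f : ℕ → ℕ, LM f → ∀ α : ℝ, 0 < α → ∀ U : ℕ, ∃ N₀ : ℕ, ∀ N : ℕ, N₀ ≤ N → ∀ β : ℝ, 0 ≤ β → β ≤ 1 →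
        ({m : ℕ | 1 ≤ m ∧ m ≤ N ∧
          ¬ ∀ d : ℕ, 1 ≤ d → |(d : ℝ) - α * f m| ≤ (f m : ℝ) ^ κ → Good ε η c β d}.ncard : ℝ) ≤
          N / Real.log N ^ U) ∧
    (LM Nat.totient ∧ LM (fun m => ∑ d ∈ m.divisors, d)) := by
  classical
  refine ⟨fun ε η hε hε1 hη hη1 => ?_, lm_totient, lm_sigma⟩
  obtain ⟨c, κ₀, hc, hκ₀, D₀, h⟩ := ShortClassIntervals.result ε η hε hε1 hη hη1
  obtain ⟨κ, hκ⟩ : ∃ κ, κ = min κ₀ 1 := ⟨_, rfl⟩
  have hκ0 : 0 < κ := by rw [hκ]; exact lt_min hκ₀ one_pos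
  have hκ1 : κ ≤ 1 := by rw [hκ]; exact min_le_right _ _
  have hκκ : κ ≤ κ₀ := by rw [hκ]; exact min_le_left _ _
  refine ⟨c, κ / 4, hc, by linarith, fun f hf α hα U => ?_⟩
  obtain ⟨N₀, hN₀⟩ := keep_away hf (θ := 1 - κ / 2) (κ := κ / 4) (by linarith) (by linarith) (by linarith)
    (2 * ((D₀ + 1 : ℕ) : ℝ) + 2 + 8 / κ) hα U
  refine ⟨N₀, fun N hN β hβ0 hβ1 => ?_⟩
  have h2 := hN₀ {d : ℕ | ¬ Good ε η c β d} (fun X hX => by
    refine le_trans (le_of_eq ?_) (dyadic (S := {d : ℕ | ¬ Good ε η c β d}) hκ0 hκ1 (D₀ := D₀ + 1) ?_ X hX)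
    · congr!
    · intro D hD
      obtain ⟨E, hE1, hE2⟩ := h D (by omega) β hβ0 hβ1
      have hD1 : (1 : ℝ) ≤ D := by
        have : 1 ≤ D := by omega
        exact_mod_cast this
      refine ⟨E, hE1.trans (Real.rpow_le_rpow_of_exponent_le hD1 (by linarith)), fun d hd1 hd2 hd3 hd4 => ?_⟩
      exact hd4 (hE2 d hd1 hd2 hd3)) N hN
  refine le_trans ?_ h2
  rw [← Set.ncard_coe_finset]
  have hsub : {m : ℕ | 1 ≤ m ∧ m ≤ N ∧
      ¬ ∀ d : ℕ, 1 ≤ d → |(d : ℝ) - α * f m| ≤ (f m : ℝ) ^ (κ / 4) → Good ε η c β d} ⊆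
      (((Icc 1 N).filter (fun m => ∃ b ∈ {d : ℕ | ¬ Good ε η c β d}, 1 ≤ b ∧
        |(b : ℝ) - α * f m| ≤ (f m : ℝ) ^ (κ / 4)) : Finset ℕ) : Set ℕ) := by
    rintro m ⟨h3, h4, h5⟩
    push Not at h5
    obtain ⟨d, hd1, hd2, hd3⟩ := h5
    rw [mem_coe, mem_filter, mem_Icc]
    exact ⟨⟨h3, h4⟩, d, hd3, hd1, hd2⟩
  have h6 := Set.ncard_le_ncard hsub (finite_toSet _)
  refine le_trans (Nat.cast_le.2 h6) (le_of_eq ?_)
  congr!

end Pool.Agent.Results.MP_42948a_nt.MultiplicativeValues
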